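import Pool.Agent.J4H64.MC.Def

set_option autoImplicit false

/-! Project MC (helper64), piece FEW. -/

namespace Pool.Agent.J4H57.MC

open Finset Pool.Agent.J4H64.MC

theorem pow_self_le (h : ℕ) : h ^ h ≤ 4 ^ h * h.factorial := by
  have h1 : h.factorial * h ^ (2 * h - h) ≤ (2 * h).factorial :=
    Nat.factorial_mul_pow_sub_le_factorial (by omega)
  have h2 : (2 * h).choose h * h.factorial * (2 * h - h).factorial = (2 * h).factorial :=
    Nat.choose_mul_factorial_mul_factorial (by omega)
  have h3 : (2 * h).choose h ≤ 4 ^ h := by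
    have := Nat.choose_le_two_pow (2 * h) h
    rwa [pow_mul] at this
  rw [show 2 * h - h = h by omega] at h1 h2
  have h4 : h.factorial * h ^ h ≤ h.factorial * ((2 * h).choose h * h.factorial) := by
    rw [← h2] at h1
    calc _ ≤ _ := h1
      _ = _ := by ring
  exact (Nat.le_of_mul_le_mul_left h4 (Nat.factorial_pos h)).trans (Nat.mul_le_mul_right _ h3)

theorem num {L K h : ℕ} (hK : 8 * L ≤ K) (hh : 2 * h ≤ L) :
    K.choose h * h ^ L * 2 ^ L ≤ K ^ L := by
  have h1 : K.choose h * h.factorial ≤ K ^ h := by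
    have := Nat.descFactorial_le_pow K h
    rw [Nat.descFactorial_eq_factorial_mul_choose] at this
    rwa [mul_comm]
  obtain ⟨d, hd⟩ : ∃ d, L = h + d := ⟨L - h, by omega⟩
  have hhd : h ≤ d := by omega
  have h2 : h ^ L * 2 ^ L ≤ h.factorial * K ^ d := by
    have h16 : 16 * h ≤ K := by omega
    calc h ^ L * 2 ^ L = (h ^ h * 2 ^ h) * (h * 2) ^ d := by rw [hd, pow_add, pow_add, mul_pow]; ring
      _ ≤ ((4 ^ h * h.factorial) * 2 ^ h) * (h * 2) ^ d := by gcongr; exact pow_self_le h
      _ = h.factorial * (8 ^ h * (h * 2) ^ d) := by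
        have e8 : (8 : ℕ) ^ h = 4 ^ h * 2 ^ h := by rw [← mul_pow]; norm_num
        rw [e8]; ring
      _ ≤ h.factorial * (8 ^ d * (h * 2) ^ d) := by gcongr; norm_num
      _ = h.factorial * (16 * h) ^ d := by
        rw [← mul_pow, show 8 * (h * 2) = 16 * h by ring]
      _ ≤ _ := by gcongr
  apply Nat.le_of_mul_le_mul_left _ (Nat.factorial_pos h)
  calc h.factorial * (K.choose h * h ^ L * 2 ^ L) = (K.choose h * h.factorial) * (h ^ L * 2 ^ L) := by ring
    _ ≤ K ^ h * (h.factorial * K ^ d) := Nat.mul_le_mul h1 h2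
    _ = h.factorial * K ^ L := by rw [hd, pow_add]; ring

theorem t_FEW : S_FEW := by
  intro α β _ _ _ _ hK
  obtain ⟨h, hh⟩ : ∃ h, h = Fintype.card α / 2 := ⟨_, rfl⟩
  have hh1 : 2 * h ≤ Fintype.card α := by omega
  have h1 : (univ.filter (fun f : α → β => 2 * (univ.image f).card ≤ Fintype.card α)) ⊆
      (powersetCard h (univ : Finset β)).biUnion (fun T => Fintype.piFinset (fun _ : α => T)) := by
    intro f hf
    rw [mem_filter] at hf
    obtain ⟨T, hT1, hT2⟩ := exists_superset_card_eq (s := univ.image f) (n := h)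
      (by omega) (by omega)
    rw [mem_biUnion]
    refine ⟨T, by rw [mem_powersetCard]; exact ⟨subset_univ _, hT2⟩, ?_⟩
    rw [Fintype.mem_piFinset]
    intro a
    exact hT1 (mem_image_of_mem _ (mem_univ _))
  have h2 : (univ.filter (fun f : α → β => 2 * (univ.image f).card ≤ Fintype.card α)).card ≤
      (Fintype.card β).choose h * h ^ Fintype.card α := by
    refine (card_le_card h1).trans (card_biUnion_le.trans ?_)
    rw [← card_univ (α := β), ← card_powersetCard, ← smul_eq_mul, ← sum_const]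
    refine sum_le_sum fun T hT => ?_
    rw [mem_powersetCard] at hT
    rw [Fintype.card_piFinset, prod_const, card_univ, hT.2]
  exact (Nat.mul_le_mul_right _ h2).trans (num hK hh1)

end Pool.Agent.J4H57.MC
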